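import Pool.Agent.H.MP_5de61a_co.A

set_option linter.unusedSectionVars false

namespace Pool.Agent.H.MP_279640_co

open Finset Pool.Agent.H.MP_5de61a_co

variable {V : Type*} [Fintype V] [DecidableEq V] (G : SimpleGraph V) [DecidableRel G.Adj]

lemma greedy (h : V → ℤ) (L : ℕ) (k : ℕ) : ∀ U : Finset V, U.card ≤ k → U.card ≤ L →
    ∃ z : V → ℤ, Tri z ∧ ∑ w, z w = 0 ∧ (∀ w, w ∉ U → z w = 0) ∧
      ∑ u ∈ U, ∑ v ∈ U, |h u - h v| ≤ -(2 * L * ∑ w, z w * h w) := by
  induction k with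
  | zero =>
    intro U h1 _
    have : U = ∅ := card_eq_zero.1 (by omega)
    subst this
    exact ⟨0, fun _ => Or.inl rfl, by simp, by simp, by simp⟩
  | succ k ih =>
    intro U h1 h2
    rcases U.eq_empty_or_nonempty with rfl | hne
    · exact ⟨0, fun _ => Or.inl rfl, by simp, by simp, by simp⟩
    obtain ⟨a, ha, hmax⟩ := exists_max_image U h hne
    obtain ⟨b, hb, hmin⟩ := exists_min_image U h hne
    by_cases hab : a = b
    · refine ⟨0, fun _ => Or.inl rfl, by simp, by simp, ?_⟩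
      simp only [Pi.zero_apply, zero_mul, sum_const_zero, mul_zero, neg_zero]
      refine sum_nonpos fun u hu => sum_nonpos fun v hv => ?_
      have := hmax u hu; have := hmax v hv; have := hmin u hu; have := hmin v hv
      subst hab
      rw [abs_nonpos_iff]; omega
    have hb' : b ∈ U.erase a := mem_erase.2 ⟨Ne.symm hab, hb⟩
    set U' := (U.erase a).erase b with hU'
    have hc : U'.card + 2 = U.card := by
      have := card_erase_add_one ha
      have : U'.card + 1 = (U.erase a).card := card_erase_add_one hb'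
      omega
    obtain ⟨z, z1, z2, z3, z4⟩ := ih U' (by omega) (by omega)
    have za : z a = 0 := z3 a (by simp [hU'])
    have zb : z b = 0 := z3 b (by simp [hU'])
    refine ⟨z + (Pi.single b 1 - Pi.single a 1), fun w => ?_, ?_, fun w hw => ?_, ?_⟩
    · by_cases c1 : w = a
      · subst c1; simp [za, hab]
      · by_cases c2 : w = b
        · subst c2; simp [zb, c1]
        · simpa [c1, c2] using z1 w
    · simp [sum_add_distrib, sum_sub_distrib, z2]
    · have c1 : w ≠ a := fun c => hw (c ▸ ha)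
      have c2 : w ≠ b := fun c => hw (c ▸ hb)
      simpa [c1, c2] using z3 w (fun h' => hw (mem_of_mem_erase (mem_of_mem_erase h')))
    · have e : ∑ w, (z + (Pi.single b 1 - Pi.single a 1 : V → ℤ)) w * h w =
          ∑ w, z w * h w + (h b - h a) := by
        simp [add_mul, sub_mul, sum_add_distrib, sum_sub_distrib, Pi.single_apply]
      rw [e]
      have split : ∀ f : V → ℤ, ∑ u ∈ U, f u = f a + f b + ∑ u ∈ U', f u := by
        intro f
        rw [← add_sum_erase _ _ ha, ← add_sum_erase _ _ hb', add_assoc]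
      have key : ∀ u ∈ U, |h a - h u| + |h b - h u| = h a - h b := by
        intro u hu
        rw [abs_of_nonneg (sub_nonneg.2 (hmax u hu)), abs_of_nonpos (sub_nonpos.2 (hmin u hu))]; ring
      have a1 : ∑ v ∈ U, |h a - h v| + ∑ v ∈ U, |h b - h v| = U.card * (h a - h b) := by
        rw [← sum_add_distrib, sum_congr rfl key, sum_const, nsmul_eq_mul]
      have a2 : ∑ u ∈ U', ∑ v ∈ U, |h u - h v| =
          U'.card * (h a - h b) + ∑ u ∈ U', ∑ v ∈ U', |h u - h v| := by
        rw [sum_congr rfl (g := fun u => (h a - h b) + ∑ v ∈ U', |h u - h v|), sum_add_distrib]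
        · rw [sum_const, nsmul_eq_mul]
        · intro u hu
          rw [split, abs_sub_comm (h u), abs_sub_comm (h u),
            key u (mem_of_mem_erase (mem_of_mem_erase hu))]
      rw [split, a1, a2]
      have a3 : 0 ≤ h a - h b := sub_nonneg.2 (hmax b hb)
      have a4 : (U.card : ℤ) ≤ L := by exact_mod_cast h2
      have a5 : (U'.card : ℤ) ≤ L := by exact_mod_cast (show U'.card ≤ L by omega)
      nlinarith [mul_le_mul_of_nonneg_right a4 a3, mul_le_mul_of_nonneg_right a5 a3]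

lemma khin {P : Type*} (S : Finset P) (c : V → P → ℤ) (hc : ∀ s p, c s p = 0 ∨ c s p = 1 ∨ c s p = -1)
    (X : Finset V) : ∀ R : ℤ, ∃ τ : V → ℤ, (∀ s, τ s = 1 ∨ τ s = -1) ∧
      (R - 6 * X.card) * ∑ s ∈ X, ∑ p ∈ S, c s p ^ 2 ≤
        ∑ p ∈ S, (R * (∑ s ∈ X, τ s * c s p) ^ 2 - (∑ s ∈ X, τ s * c s p) ^ 4) := by
  induction X using Finset.induction_on with
  | empty => intro R; exact ⟨fun _ => 1, fun _ => Or.inl rfl, by simp⟩
  | insert s X hs ih =>
    intro R
    obtain ⟨τ, h1, h2⟩ := ih (R - 6)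
    have key : ∀ e : ℤ, ∀ p, ∑ s' ∈ insert s X, Function.update τ s e s' * c s' p =
        e * c s p + ∑ s' ∈ X, τ s' * c s' p := by
      intro e p
      rw [sum_insert hs, Function.update_self]
      congr 1
      refine sum_congr rfl fun s' hs' => ?_
      rw [Function.update_of_ne (by rintro rfl; exact hs hs')]
    have hup : ∀ e : ℤ, (e = 1 ∨ e = -1) → ∀ s', Function.update τ s e s' = 1 ∨
        Function.update τ s e s' = -1 := by
      intro e he s'
      by_cases h : s' = s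
      · subst h; simpa using he
      · rw [Function.update_of_ne h]; exact h1 s'
    have hsum : 2 * (∑ p ∈ S, ((R - 6) * (∑ s ∈ X, τ s * c s p) ^ 2 - (∑ s ∈ X, τ s * c s p) ^ 4) +
        (R - 1) * ∑ p ∈ S, c s p ^ 2) ≤
        ∑ p ∈ S, (R * (1 * c s p + ∑ s ∈ X, τ s * c s p) ^ 2 - (1 * c s p + ∑ s ∈ X, τ s * c s p) ^ 4)
        + ∑ p ∈ S, (R * (-1 * c s p + ∑ s ∈ X, τ s * c s p) ^ 2 -
          (-1 * c s p + ∑ s ∈ X, τ s * c s p) ^ 4) := by
      rw [mul_sum, ← sum_add_distrib, ← sum_add_distrib, mul_sum]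
      refine sum_le_sum fun p _ => ?_
      generalize ∑ s ∈ X, τ s * c s p = t
      rcases hc s p with h | h | h <;> rw [h] <;> nlinarith [sq_nonneg t]
    have hnn : 0 ≤ ∑ p ∈ S, c s p ^ 2 := sum_nonneg fun _ _ => sq_nonneg _
    have hX : (0 : ℤ) ≤ X.card := by positivity
    have hfin : (R - 6 * (insert s X).card) * ∑ s ∈ insert s X, ∑ p ∈ S, c s p ^ 2 ≤
        ∑ p ∈ S, ((R - 6) * (∑ s ∈ X, τ s * c s p) ^ 2 - (∑ s ∈ X, τ s * c s p) ^ 4) +
        (R - 1) * ∑ p ∈ S, c s p ^ 2 := by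
      rw [sum_insert hs, card_insert_of_notMem hs]
      push_cast
      nlinarith [mul_nonneg hX hnn]
    by_cases hh : ∑ p ∈ S, (R * (1 * c s p + ∑ s ∈ X, τ s * c s p) ^ 2 -
        (1 * c s p + ∑ s ∈ X, τ s * c s p) ^ 4) ≤ ∑ p ∈ S, (R * (-1 * c s p + ∑ s ∈ X, τ s * c s p) ^ 2 -
          (-1 * c s p + ∑ s ∈ X, τ s * c s p) ^ 4)
    · refine ⟨Function.update τ s (-1), hup _ (Or.inr rfl), ?_⟩
      simp only [key]; linarith
    · refine ⟨Function.update τ s 1, hup _ (Or.inl rfl), ?_⟩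
      simp only [key]; linarith

lemma B_supp (x : V → ℤ) (hx : Tri x) (T : Finset V) (hT : ∀ w, w ∉ T → x w = 0) :
    B G x x ≤ T.card * T.card := by
  unfold B
  rw [← sum_subset (subset_univ T) (fun u _ hu => by simp [hT u hu])]
  calc _ ≤ ∑ u ∈ T, (T.card : ℤ) := by
        refine sum_le_sum fun u _ => ?_
        rw [← sum_subset (subset_univ T) (fun v _ hv => by simp [hT v hv])]
        calc _ ≤ ∑ v ∈ T, (1 : ℤ) := by
              refine sum_le_sum fun v _ => ?_
              split_ifs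
              · rcases hx u with a | a | a <;> rcases hx v with b | b | b <;> simp [a, b]
              · norm_num
          _ = _ := by simp
    _ = _ := by simp

lemma B_indep (z : V → ℤ) (U : Finset V) (hU : ∀ u ∈ U, ∀ v ∈ U, ¬ G.Adj u v)
    (hz : ∀ w, w ∉ U → z w = 0) : B G z z = 0 := by
  refine sum_eq_zero fun u _ => sum_eq_zero fun v _ => ?_
  split_ifs with h
  · by_cases hu : u ∈ U
    · rw [hz v (fun hv => hU u hu v hv h), mul_zero]
    · rw [hz u hu, zero_mul]
  · rfl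

lemma mid (U W X : Finset V) (hU : ∀ u ∈ U, ∀ v ∈ U ∪ W, ¬ G.Adj u v) (hUW : Disjoint U W)
    (hX : Disjoint X (U ∪ W)) (κ g : ℕ) (hκ : 0 < κ) (hWc : W.card = 3 * κ ^ 2)
    (hXc : X.card = 3 * κ ^ 2)
    (hd : ∀ s ∈ X, g ≤ (U.filter (G.Adj s)).card ∧ (U.filter (G.Adj s)).card + g ≤ U.card) :
    ∃ x : V → ℤ, Tri x ∧ ∑ w, x w = 0 ∧
      2 * Fintype.card V * B G x x ≤ 2 * Fintype.card V * (6 * κ ^ 2) ^ 2 - κ * g ^ 2 := by
  let a : V → V → ℤ := fun s u => if G.Adj s u then 1 else 0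
  obtain ⟨τ, τ1, τ2⟩ := khin (U ×ˢ U) (fun s p => a s p.1 - a s p.2)
    (fun s p => by simp only [a]; split_ifs <;> simp) X ((6 * κ) ^ 2)
  let h : V → ℤ := fun u => ∑ s ∈ X, τ s * a s u
  have e1 : ∀ p : V × V, ∑ s ∈ X, τ s * (a s p.1 - a s p.2) = h p.1 - h p.2 := by
    intro p; simp only [h, mul_sub, sum_sub_distrib]
  simp only [e1] at τ2
  have b1 : ∀ s ∈ X, 2 * (g : ℤ) ^ 2 ≤ ∑ p ∈ U ×ˢ U, (a s p.1 - a s p.2) ^ 2 := by
    intro s hs
    have c1 : ∑ u ∈ U, a s u = (U.filter (G.Adj s)).card := by simp [a]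
    have c2 : ∑ p ∈ U ×ˢ U, (a s p.1 - a s p.2) ^ 2 =
        2 * (U.card * ∑ u ∈ U, a s u) - 2 * ((∑ u ∈ U, a s u) * ∑ u ∈ U, a s u) := by
      rw [sum_congr rfl (g := fun p => a s p.1 + a s p.2 - 2 * (a s p.1 * a s p.2))
        (fun p _ => by simp only [a]; split_ifs <;> simp), sum_product, sum_mul_sum]
      simp only [sum_sub_distrib, sum_add_distrib, sum_const, nsmul_eq_mul, ← mul_sum]
      ring
    rw [c2, c1]
    have c3 : (g : ℤ) ≤ (U.filter (G.Adj s)).card := by exact_mod_cast (hd s hs).1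
    have c4 : ((U.filter (G.Adj s)).card : ℤ) + g ≤ U.card := by exact_mod_cast (hd s hs).2
    have c5 : (0 : ℤ) ≤ g := by positivity
    nlinarith [mul_le_mul c3 (show (g : ℤ) ≤ U.card - (U.filter (G.Adj s)).card by linarith) c5
      (c5.trans c3)]
  have b2 := sum_le_sum b1
  rw [sum_const, nsmul_eq_mul, hXc] at b2
  have b3 : ∑ p ∈ U ×ˢ U, ((6 * (κ : ℤ)) ^ 2 * (h p.1 - h p.2) ^ 2 - (h p.1 - h p.2) ^ 4) ≤
      (6 * κ) ^ 3 * ∑ u ∈ U, ∑ v ∈ U, |h u - h v| := by
    rw [← sum_product', mul_sum]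
    refine sum_le_sum fun p _ => ?_
    have c0 : (0 : ℤ) ≤ 6 * κ := by positivity
    generalize 6 * (κ : ℤ) = ρ at c0 ⊢
    have c1 : (h p.1 - h p.2) ^ 4 = (|h p.1 - h p.2| ^ 2) ^ 2 := by rw [sq_abs]; ring
    rw [c1, ← sq_abs (h p.1 - h p.2)]
    have c2 := abs_nonneg (h p.1 - h p.2)
    generalize |h p.1 - h p.2| = t at c2 ⊢
    rcases le_total t ρ with c3 | c3
    · nlinarith [mul_nonneg (mul_nonneg c2 (sq_nonneg ρ)) (sub_nonneg.2 c3), sq_nonneg (t ^ 2)]
    · nlinarith [mul_nonneg (sq_nonneg t) (mul_nonneg (sub_nonneg.2 c3) (add_nonneg c0 c2)),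
        mul_nonneg (pow_nonneg c0 3) c2]
  obtain ⟨z, z1, z2, z3, z4⟩ := greedy h (Fintype.card V) _ U le_rfl (card_le_univ _)
  have b4 : (κ : ℤ) * g ^ 2 ≤ 2 * ∑ u ∈ U, ∑ v ∈ U, |h u - h v| := by
    rw [hXc] at τ2
    push_cast at τ2 b2
    have c1 : (0 : ℤ) < 108 * κ ^ 3 := by positivity
    refine le_of_mul_le_mul_left ?_ c1
    nlinarith [mul_le_mul_of_nonneg_left b2 (show (0 : ℤ) ≤ 18 * κ ^ 2 by positivity)]
  have hD : (∑ s ∈ X, τ s).natAbs ≤ W.card := by
    rw [hWc, ← hXc]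
    have : |∑ s ∈ X, τ s| ≤ X.card := by
      refine (abs_sum_le_sum_abs _ _).trans ?_
      rw [sum_congr rfl (g := fun _ => (1 : ℤ)) (fun s _ => by rcases τ1 s with c | c <;> simp [c])]
      simp
    rw [Int.abs_eq_natAbs] at this
    exact_mod_cast this
  obtain ⟨W', w1, w2⟩ := exists_subset_card_eq hD
  let e : ℤ := if 0 ≤ ∑ s ∈ X, τ s then -1 else 1
  let x0 : V → ℤ := fun v => if v ∈ X then τ v else if v ∈ W' then e else 0
  have hXW : ∀ v ∈ W', v ∉ X := fun v hv h' =>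
    disjoint_left.1 hX h' (mem_union_right _ (w1 hv))
  have x01 : Tri x0 := by
    intro v
    simp only [x0, e]
    split_ifs
    · exact Or.inr (τ1 v)
    · simp
    · simp
    · simp
  have x02 : ∑ w, x0 w = 0 := by
    have : ∀ v, x0 v = (if v ∈ X then τ v else 0) + (if v ∈ W' then e else 0) := by
      intro v
      simp only [x0]
      by_cases c : v ∈ X
      · have : v ∉ W' := fun h' => hXW v h' c
        simp [c, this]
      · simp [c]
    simp only [this, sum_add_distrib, sum_ite_mem, univ_inter, sum_const, nsmul_eq_mul, w2, e]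
    split_ifs <;> omega
  have x03 : ∀ u ∈ U, x0 u = 0 := by
    intro u hu
    have c1 : u ∉ X := fun h' => disjoint_left.1 hX h' (mem_union_left _ hu)
    have c2 : u ∉ W' := fun h' => disjoint_left.1 hUW hu (w1 h')
    simp [x0, c1, c2]
  have x04 : B G x0 x0 ≤ (6 * κ ^ 2) ^ 2 := by
    refine (B_supp G x0 x01 (X ∪ W) (fun w hw => ?_)).trans ?_
    · rw [mem_union, not_or] at hw
      have : w ∉ W' := fun h' => hw.2 (w1 h')
      simp [x0, hw.1, this]
    · have : (X ∪ W).card ≤ 6 * κ ^ 2 := (card_union_le _ _).trans (by omega)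
      have : ((X ∪ W).card : ℤ) ≤ 6 * κ ^ 2 := by exact_mod_cast this
      rw [sq (6 * (κ : ℤ) ^ 2)]
      exact mul_le_mul this this (by positivity) (by positivity)
  have x05 : B G x0 z = ∑ w, z w * h w := by
    unfold B
    rw [sum_comm]
    refine sum_congr rfl fun v _ => ?_
    by_cases hv : v ∈ U
    · simp only [h, mul_sum]
      rw [← sum_subset (subset_univ X)]
      · refine sum_congr rfl fun s hs => ?_
        simp only [x0, a, hs, if_true]
        split_ifs <;> ring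
      · intro s _ hs
        split_ifs with c
        · have : s ∉ W' := fun h' => hU v hv s (mem_union_right _ (w1 h')) c.symm
          simp [x0, hs, this]
        · rfl
    · simp [z3 v hv]
  refine ⟨x0 + (1 : ℤ) • z, fun v => ?_, by simp [sum_add_distrib, x02, z2], ?_⟩
  · by_cases hv : v ∈ U
    · simpa [x03 v hv] using z1 v
    · simpa [z3 v hv] using x01 v
  · rw [B_add, B_indep G z U (fun u hu v hv => hU u hu v (mem_union_left _ hv)) z3, x05]
    have : (0 : ℤ) ≤ Fintype.card V := by positivity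
    nlinarith [mul_le_mul_of_nonneg_left x04 this]

lemma full (U X : Finset V) (hU : ∀ u ∈ U, ∀ v ∈ U, ¬ G.Adj u v) (hX : Disjoint X U) (g : ℕ)
    (hXc : X.card = 4 * g) (hUc : 4 * g ≤ U.card)
    (hd : ∀ s ∈ X, U.card ≤ (U.filter (G.Adj s)).card + g) :
    ∃ x : V → ℤ, Tri x ∧ ∑ w, x w = 0 ∧ B G x x ≤ -(8 * g ^ 2) := by
  obtain ⟨Y, y1, y2⟩ := exists_subset_card_eq hUc
  let a : V → ℤ := fun v => if v ∈ X then 1 else 0
  let c : V → ℤ := fun v => if v ∈ Y then 1 else 0
  refine ⟨a + (-1 : ℤ) • c, fun v => ?_, ?_, ?_⟩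
  · by_cases h1 : v ∈ X
    · have h2 : v ∉ Y := fun h2 => disjoint_left.1 hX h1 (y1 h2)
      simp [a, c, h1, h2]
    · by_cases h2 : v ∈ Y <;> simp [a, c, h1, h2]
  · simp [a, c, sum_add_distrib, hXc, y2]
  · rw [B_add, B_indep G c U hU (fun w hw => by
      have : w ∉ Y := fun h => hw (y1 h)
      simp [c, this])]
    have b1 := B_supp G a (fun v => by simp only [a]; split_ifs <;> simp) X
      (fun w hw => by simp [a, hw])
    have b2 : ∑ s ∈ X, (3 * g : ℤ) ≤ B G a c := by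
      unfold B
      rw [← sum_subset (subset_univ X) (fun u _ hu => by simp [a, hu])]
      refine sum_le_sum fun s hs => ?_
      have c1 : ∑ v, (if G.Adj s v then a s * c v else 0) = (Y.filter (G.Adj s)).card := by
        rw [← sum_subset (subset_univ Y) (fun u _ hu => by simp [c, hu]), card_filter]
        push_cast
        refine sum_congr rfl fun v hv => ?_
        simp [a, c, hs, hv]
      rw [c1]
      have c2 := card_filter_add_card_filter_not (s := Y) (G.Adj s)
      have c3 := card_filter_add_card_filter_not (s := U) (G.Adj s)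
      have c4 : (Y.filter (fun v => ¬ G.Adj s v)).card ≤ (U.filter (fun v => ¬ G.Adj s v)).card :=
        card_le_card (filter_subset_filter _ y1)
      have c5 := hd s hs
      omega
    rw [sum_const, nsmul_eq_mul, hXc] at b2
    rw [hXc] at b1
    push_cast at b1 b2
    nlinarith

lemma twice_le (S : Finset V) (hS : ∀ u v, G.Adj u v → u ∈ S ∨ v ∈ S) :
    2 * G.edgeFinset.card ≤ S.card * S.card + 2 * ∑ s ∈ S, (Sᶜ.filter (G.Adj s)).card := by
  rw [← G.sum_degrees_eq_twice_card_edges]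
  have h1 : ∀ u, G.degree u = (S.filter (G.Adj u)).card + (Sᶜ.filter (G.Adj u)).card := by
    intro u
    rw [← SimpleGraph.card_neighborFinset_eq_degree, SimpleGraph.neighborFinset_eq_filter,
      ← card_union_of_disjoint (disjoint_filter_filter disjoint_compl_right), ← filter_union,
      union_compl]
  rw [← sum_add_sum_compl S]
  simp only [h1, sum_add_distrib]
  have a1 : ∑ u ∈ S, (S.filter (G.Adj u)).card ≤ S.card * S.card := by
    rw [← smul_eq_mul]; exact sum_le_card_nsmul _ _ _ (fun u _ => card_filter_le _ _)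
  have a2 : ∑ u ∈ Sᶜ, (Sᶜ.filter (G.Adj u)).card = 0 := sum_eq_zero fun u hu => by
    rw [card_eq_zero, filter_eq_empty_iff]
    intro v hv h
    rcases hS u v h with c | c
    · exact mem_compl.1 hu c
    · exact mem_compl.1 hv c
  have a3 : ∑ u ∈ Sᶜ, (S.filter (G.Adj u)).card = ∑ s ∈ S, (Sᶜ.filter (G.Adj s)).card := by
    simp only [card_filter]
    rw [sum_comm]
    refine sum_congr rfl fun s _ => sum_congr rfl fun u _ => ?_
    simp [G.adj_comm]
  omega

lemma cover (D κ : ℕ) (hD : 0 < D) (hκ : κ = 8 * (64 * D) ^ 2)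
    (hn : 6 * D * κ ^ 2 + 18 * κ ^ 4 + (64 * D + κ ^ 2) * (32 * D) ≤ Fintype.card V)
    (S : Finset V) (hS : ∀ u v, G.Adj u v → u ∈ S ∨ v ∈ S)
    (hm : D * (S.card * S.card) + 2 * Fintype.card V ^ 2 ≤ D * (2 * G.edgeFinset.card)) :
    ∃ x : V → ℤ, Tri x ∧ ∑ w, x w = 0 ∧ B G x x ≤ -(2 * Fintype.card V) := by
  have h0 := Nat.mul_le_mul_left D (twice_le G S hS)
  set n := Fintype.card V with hn'
  have hκ0 : 0 < κ := by rw [hκ]; positivity
  have n0 : 0 < n := lt_of_lt_of_le (by positivity) hn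
  have hSn : S.card ≤ n := card_le_univ _
  have h1 : n ^ 2 ≤ D * ∑ s ∈ S, (Sᶜ.filter (G.Adj s)).card := by nlinarith
  have h2 : 3 * κ ^ 2 ≤ Sᶜ.card := by
    have a1 : ∑ s ∈ S, (Sᶜ.filter (G.Adj s)).card ≤ S.card * Sᶜ.card := by
      rw [← smul_eq_mul]; exact sum_le_card_nsmul _ _ _ (fun u _ => card_filter_le _ _)
    have a2 := Nat.mul_le_mul_left D (a1.trans (Nat.mul_le_mul_right _ hSn))
    have a3 : n * n ≤ n * (D * Sᶜ.card) := by nlinarith
    have a4 := Nat.le_of_mul_le_mul_left a3 n0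
    have a5 : D * (3 * κ ^ 2) ≤ D * Sᶜ.card := by nlinarith
    exact Nat.le_of_mul_le_mul_left a5 hD
  obtain ⟨W, w1, w2⟩ := exists_subset_card_eq h2
  set U := Sᶜ \ W with hU
  have hUS : ∀ u ∈ U ∪ W, u ∉ S := by
    intro u hu
    rcases mem_union.1 hu with c | c
    · exact mem_compl.1 (mem_sdiff.1 c).1
    · exact mem_compl.1 (w1 c)
  have hind : ∀ u ∈ U, ∀ v ∈ U ∪ W, ¬ G.Adj u v := by
    intro u hu v hv h
    rcases hS u v h with c | c
    · exact hUS u (mem_union_left _ hu) c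
    · exact hUS v hv c
  set g := n / (32 * D) with hg
  have g1 : g * (32 * D) ≤ n := Nat.div_mul_le_self _ _
  have g2 : 64 * D + κ ^ 2 ≤ g := (Nat.le_div_iff_mul_le (by positivity)).2 (by omega)
  have g3 : n ≤ 64 * D * g := by
    have := Nat.lt_mul_div_succ n (show 0 < 32 * D by positivity)
    rw [← hg] at this
    nlinarith
  set T := S.filter (fun s => 4 * g ≤ (U.filter (G.Adj s)).card) with hT
  have h3 : 12 * g ≤ T.card := by
    have a1 : ∑ s ∈ S, (Sᶜ.filter (G.Adj s)).card ≤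
        ∑ s ∈ S, ((if 4 * g ≤ (U.filter (G.Adj s)).card then n else 0) + (4 * g + 3 * κ ^ 2)) := by
      refine sum_le_sum fun s _ => ?_
      have c1 : (Sᶜ.filter (G.Adj s)).card ≤ (U.filter (G.Adj s)).card + W.card := by
        refine (card_le_card ?_).trans (card_union_le _ _)
        intro v hv
        rw [mem_filter] at hv
        by_cases c : v ∈ W
        · exact mem_union_right _ c
        · exact mem_union_left _ (mem_filter.2 ⟨mem_sdiff.2 ⟨hv.1, c⟩, hv.2⟩)
      have c2 : (U.filter (G.Adj s)).card ≤ n := card_le_univ _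
      split_ifs <;> omega
    rw [sum_add_distrib, ← sum_filter, ← hT, sum_const, sum_const, smul_eq_mul, smul_eq_mul] at a1
    have a2 := Nat.mul_le_mul_left D
      (a1.trans (Nat.add_le_add_left (Nat.mul_le_mul_right _ hSn) _))
    have a3 : n * n ≤ n * (D * T.card + D * (4 * g + 3 * κ ^ 2)) := by nlinarith
    have a4 := Nat.le_of_mul_le_mul_left a3 n0
    have a5 : D * (12 * g) ≤ D * T.card := by nlinarith
    exact Nat.le_of_mul_le_mul_left a5 hD
  have hTS : ∀ s ∈ T, s ∈ S := fun s hs => (mem_filter.1 hs).1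
  have h4 := card_filter_add_card_filter_not (s := T)
    (fun s => (U.filter (G.Adj s)).card + g ≤ U.card)
  by_cases h5 : 3 * κ ^ 2 ≤ (T.filter (fun s => (U.filter (G.Adj s)).card + g ≤ U.card)).card
  · obtain ⟨X, x1, x2⟩ := exists_subset_card_eq h5
    obtain ⟨x, y1, y2, y3⟩ := mid G U W X hind sdiff_disjoint
      (disjoint_left.2 fun s hs h => hUS s h (hTS s (mem_filter.1 (x1 hs)).1)) κ g hκ0 w2 x2
      (fun s hs => ⟨by have := (mem_filter.1 (mem_filter.1 (x1 hs)).1).2; omega,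
        (mem_filter.1 (x1 hs)).2⟩)
    refine ⟨x, y1, y2, ?_⟩
    rw [← hn'] at y3
    have a1 : 8 * (n * n) ≤ κ * g ^ 2 := by
      have := Nat.mul_le_mul g3 g3
      rw [hκ]; nlinarith
    have a2 : n * (18 * κ ^ 4) ≤ n * n := Nat.mul_le_mul_left _ (by omega)
    have a3 : (8 * (n * n) : ℤ) ≤ κ * g ^ 2 := by exact_mod_cast a1
    have a4 : (n * (18 * κ ^ 4) : ℤ) ≤ n * n := by exact_mod_cast a2
    have a5 : (0 : ℤ) < 2 * n := by positivity
    refine le_of_mul_le_mul_left ?_ a5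
    nlinarith
  · obtain ⟨X, x1, x2⟩ := exists_subset_card_eq (show 4 * g ≤
      (T.filter (fun s => ¬ (U.filter (G.Adj s)).card + g ≤ U.card)).card by omega)
    obtain ⟨s0, hs0⟩ := card_pos.1 (show 0 < T.card by omega)
    obtain ⟨x, y1, y2, y3⟩ := full G U X (fun u hu v hv => hind u hu v (mem_union_left _ hv))
      (disjoint_left.2 fun s hs h => hUS s (mem_union_left _ h) (hTS s (mem_filter.1 (x1 hs)).1)) g x2
      ((mem_filter.1 hs0).2.trans (card_filter_le _ _))
      (fun s hs => by have := (mem_filter.1 (x1 hs)).2; omega)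
    refine ⟨x, y1, y2, y3.trans ?_⟩
    have a1 : 2 * n ≤ 8 * g ^ 2 := by
      have := Nat.mul_le_mul_right g (show 64 * D ≤ g by omega)
      nlinarith
    have a3 : (2 * n : ℤ) ≤ 8 * g ^ 2 := by exact_mod_cast a1
    linarith

lemma finish (q : ℕ) (x : V → ℤ) (x1 : Tri x) (x2 : ∑ w, x w = 0) (x3 : B G x x ≤ -(q : ℤ)) :
    ∃ A : Finset V, A.card ≤ Aᶜ.card ∧ Aᶜ.card ≤ A.card + 1 ∧
      2 * G.edgeFinset.card + q ≤ 4 * cut G A := by
  obtain ⟨y, y1, y2, y3⟩ := extend G (Fintype.card V) x x1 x2 (by omega)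
  have fin : ∀ y : V → ℤ, (∀ v, y v = 1 ∨ y v = -1) → (∑ w, y w = 0 ∨ ∑ w, y w = -1) →
      B G y y ≤ -(q : ℤ) → ∃ A : Finset V, A.card ≤ Aᶜ.card ∧ Aᶜ.card ≤ A.card + 1 ∧
      2 * G.edgeFinset.card + q ≤ 4 * cut G A := by
    intro y y1 y2 y3
    rw [B_full G y y1] at y3
    set A := univ.filter (fun v => y v = 1) with hA
    have : ∑ w, y w = (A.card : ℤ) - Aᶜ.card := by
      rw [← sum_add_sum_compl A, sum_congr rfl (g := fun _ => (1 : ℤ)) (fun v hv => (mem_filter.1 hv).2),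
        sum_congr rfl (g := fun _ => (-1 : ℤ)) (s₁ := Aᶜ)
          (fun v hv => (y1 v).resolve_left (by simpa [hA] using hv))]
      simp; ring
    refine ⟨A, by omega, by omega, ?_⟩
    have : (2 * G.edgeFinset.card + q : ℤ) ≤ 4 * cut G A := by linarith
    exact_mod_cast this
  rcases y2 with h | h | h
  · exact fin y y1 (Or.inl h) (y3.trans x3)
  · refine fin (-y) (fun v => by rcases y1 v with a | a <;> simp [a]) (Or.inr (by simp [h])) ?_
    have : B G (-y) (-y) = B G y y := by simp [B]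
    rw [this]; exact y3.trans x3
  · exact fin y y1 (Or.inr h) (y3.trans x3)

theorem main (D : ℕ) (hD : 0 < D) : ∃ N : ℕ, ∀ (n : ℕ) (G : SimpleGraph (Fin n)) [DecidableRel G.Adj]
    (j : ℕ), N ≤ G.edgeFinset.card → D * (4 * j ^ 2) + 2 * n ^ 2 ≤ D * (2 * G.edgeFinset.card) →
    ∃ A : Finset (Fin n), A.card ≤ Aᶜ.card ∧ Aᶜ.card ≤ A.card + 1 ∧
      2 * G.edgeFinset.card + 2 * j ≤ 4 * cut G A := by
  obtain ⟨κ, hκ⟩ : ∃ κ, κ = 8 * (64 * D) ^ 2 := ⟨_, rfl⟩
  refine ⟨(6 * D * κ ^ 2 + 18 * κ ^ 4 + (64 * D + κ ^ 2) * (32 * D)) ^ 2, fun n G _ j h1 h2 => ?_⟩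
  have h3 : G.edgeFinset.card ≤ n ^ 2 := by
    have := G.card_edgeFinset_le_card_choose_two
    rw [Fintype.card_fin] at this
    exact this.trans (Nat.choose_le_pow _ _)
  rcases matching G j with ⟨x, x1, x2, -, x4⟩ | ⟨S, s1, s2⟩
  · exact finish G _ x x1 x2 (by push_cast; exact x4)
  · obtain ⟨x, x1, x2, x3⟩ := cover G D κ hD hκ
      (by rw [Fintype.card_fin]; exact (Nat.pow_le_pow_iff_left (by norm_num)).1 (h1.trans h3)) S s2
      (by
        rw [Fintype.card_fin]
        have := Nat.mul_le_mul_left D (Nat.mul_le_mul s1 s1)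
        nlinarith)
    refine finish G _ x x1 x2 (x3.trans ?_)
    have a1 : D * (4 * j ^ 2) ≤ D * (2 * n ^ 2) := by
      have := Nat.mul_le_mul_left D (Nat.mul_le_mul_left 2 h3)
      omega
    have a2 := Nat.le_of_mul_le_mul_left a1 hD
    have a3 : j ≤ n := (Nat.pow_le_pow_iff_left (n := 2) (by norm_num)).1 (by omega)
    rw [Fintype.card_fin]
    push_cast
    omega

/-- clique on `K` plus isolated vertices -/
def Cl (K : Finset V) : SimpleGraph V where
  Adj u v := u ≠ v ∧ u ∈ K ∧ v ∈ K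
  symm := ⟨fun _ _ h => ⟨h.1.symm, h.2.2, h.2.1⟩⟩
  loopless := ⟨fun _ h => h.1 rfl⟩

lemma B_Cl (K : Finset V) [DecidableRel (Cl K).Adj] (y : V → ℤ) (hy : ∀ v, y v = 1 ∨ y v = -1) :
    B (Cl K) y y = (∑ u ∈ K, y u) ^ 2 - K.card := by
  unfold B
  rw [← sum_subset (subset_univ K) (fun u _ hu => by simp [Cl, hu]), sq, sum_mul_sum,
    card_eq_sum_ones]
  push_cast
  rw [← sum_sub_distrib]
  refine sum_congr rfl fun u hu => ?_
  rw [← sum_subset (subset_univ K) (fun v _ hv => by simp [Cl, hv]), ← add_sum_erase _ _ hu,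
    ← add_sum_erase _ _ hu, if_neg (Cl K).irrefl,
    sum_congr rfl (g := fun v => y u * y v)
      (fun v hv => if_pos ⟨(mem_erase.1 hv).1.symm, hu, (mem_erase.1 hv).2⟩)]
  rcases hy u with a | a <;> simp [a]

lemma Cl_edges (K : Finset V) [DecidableRel (Cl K).Adj] :
    2 * (Cl K).edgeFinset.card + K.card = K.card ^ 2 := by
  have h1 := B_Cl K (fun _ => 1) (fun _ => Or.inl rfl)
  rw [B_full _ _ (fun _ => Or.inl rfl)] at h1
  simp [cut] at h1
  have : (2 * (Cl K).edgeFinset.card + K.card : ℤ) = K.card ^ 2 := by linarith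
  exact_mod_cast this

lemma Cl_cut (K A : Finset V) [DecidableRel (Cl K).Adj] :
    4 * cut (Cl K) A ≤ 2 * (Cl K).edgeFinset.card + K.card := by
  have hy : ∀ v, (if v ∈ A then (1 : ℤ) else -1) = 1 ∨ (if v ∈ A then (1 : ℤ) else -1) = -1 :=
    fun v => by split_ifs <;> simp
  have h1 := B_Cl K _ hy
  rw [B_full _ _ hy] at h1
  have h2 : univ.filter (fun v => (if v ∈ A then (1 : ℤ) else -1) = 1) = A := by
    ext v; by_cases h : v ∈ A <;> simp [h]
  rw [h2] at h1
  have : (4 * cut (Cl K) A : ℤ) ≤ 2 * (Cl K).edgeFinset.card + K.card := by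
    nlinarith [sq_nonneg (∑ u ∈ K, (if u ∈ A then (1 : ℤ) else -1))]
  exact_mod_cast this

end Pool.Agent.H.MP_279640_co
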